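import Pool.Agent.H22.U.SEQ
import Pool.Agent.H89.U3.Stmts

/-!
# Project U3: module SEQC

`SEQ` with continuous parameters.
-/

namespace Pool.Agent.H22.U3

open Pool.Agent.H89.MOD (FamEx)
open Pool.Agent.H26.U Pool.Agent.H15.U Pool.Agent.H89.U3 Pool.Agent.H22.U
  Matrix Pool.Agent.H54.Etf

theorem fm_succ {n : ℕ} (s : ℕ) (U R : ZMod n → ℂ) (v : Fin s → ZMod n → ℂ) (j : Fin s)
    (y : ZMod n) : fm s U R v j.succ.succ (kc s j.succ.succ, y) = v j y := by
  simp only [fm, if_true]
  rfl

theorem fm_cont {n : ℕ} (s : ℕ) (U R : ZMod n → ℂ) {T : Type} [TopologicalSpace T]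
    (v : T → Fin s → ZMod n → ℂ) (hv : Continuous v) :
    Continuous (fun t => fm s U R (v t)) := by
  refine continuous_pi fun i => continuous_pi fun h => ?_
  by_cases hh : h.1 = kc s i
  · have e : (fun t => fm s U R (v t) i h) = fun t => gm s U R (v t) i h.2 := by
      funext t
      rw [fm, if_pos hh]
    rw [e]
    clear e hh
    refine Fin.cases ?_ (fun i => ?_) i
    · exact continuous_const
    · refine Fin.cases ?_ (fun i => ?_) i
      · exact continuous_const
      · exact (continuous_apply h.2).comp ((continuous_apply i).comp hv)
  · have e : (fun t => fm s U R (v t) i h) = fun _ => 0 := by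
      funext t
      rw [fm, if_neg hh]
    rw [e]
    exact continuous_const

theorem SEQC (hC : S_CAR) (hT : S_TRI) : S_SEQC := by
  intro τ n _ hτ hn hn3 U R d v hU hR hvc hvi hv hsum
  obtain ⟨s, rfl⟩ : ∃ s, τ = s + 1 := ⟨τ - 1, by omega⟩
  change (Fin d → ℝ) → Fin s → ZMod n → ℂ at v
  obtain ⟨ι, i1, i2, ⟨F⟩, hc⟩ := hC (s + 2)
  have hcard : Fintype.card ι * Fintype.card (ZMod (2 * (s + 1)) × ZMod n) =
      8 ^ (s + 1 + 1) * (2 * (s + 1) * n) := by
    rw [hc, Fintype.card_prod, ZMod.card, ZMod.card]
  have hc3 : 3 ≤ Fintype.card ι := by
    rw [hc]
    have : 8 ^ 1 ≤ 8 ^ (s + 2) := Nat.pow_le_pow_right (by norm_num) (by omega)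
    omega
  rw [← hcard]
  have ht1 : ((s + 1 : ℕ) : ZMod (2 * (s + 1))) ≠ 0 := by
    intro h
    rw [ZMod.natCast_eq_zero_iff] at h
    have := Nat.le_of_dvd (by omega) h
    omega
  have ht2 : ((s + 1 : ℕ) : ZMod (2 * (s + 1))) + ((s + 1 : ℕ) : ZMod (2 * (s + 1))) = 0 := by
    rw [← Nat.cast_add, ZMod.natCast_eq_zero_iff]
    exact ⟨1, by ring⟩
  have k0 : kc s 0 = 0 := by rw [kc, cs_zero, Nat.cast_zero]
  have k1 : kc s (Fin.succ 0) = ((s + 1 : ℕ) : ZMod (2 * (s + 1))) := by rw [kc, cs_one]
  refine hT (s + 2) ι F hc3 (ZMod (2 * (s + 1)) × ZMod n)
    (((s + 1 : ℕ) : ZMod (2 * (s + 1))), 0)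
    (fun h => ht1 (congrArg Prod.fst h)) (Prod.ext ht2 (add_zero _)) d
    (fun r => fm s U R (v r)) (fm_cont s U R v hvc) ?_ ?_ ?_ ?_
  · intro r r' h
    apply hvi
    funext j y
    have h2 := congrFun (congrFun h j.succ.succ) (kc s j.succ.succ, y)
    simp only [fm_succ] at h2
    exact h2
  · intro r j
    refine Fin.cases ?_ (fun j => ?_) j
    · constructor
      · simp only [fm, Prod.fst_zero, Prod.snd_zero, k0, if_true]
        exact hU.zero
      · simp only [fm, k0]
        rw [if_neg ht1]
    · refine Fin.cases ?_ (fun j => ?_) j
      · constructor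
        · simp only [fm, Prod.fst_zero, Prod.snd_zero, k1]
          rw [if_neg (fun h => ht1 h.symm)]
        · simp only [fm, k1, if_true]
          exact hR.zero
      · constructor
        · simp only [fm, Prod.fst_zero, Prod.snd_zero]
          rw [if_neg]
          intro h
          rw [← k0] at h
          have := kc_inj s _ _ h
          exact (Fin.succ_ne_zero _) this.symm
        · simp only [fm]
          rw [if_neg]
          intro h
          rw [← k1] at h
          have := kc_inj s _ _ h
          exact (Fin.succ_ne_zero j) (Fin.succ_injective _ this).symm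
  · rintro ⟨δ, y⟩ h0 ht
    obtain ⟨j, hj⟩ := kc_surj s δ
    refine ⟨j, ?_, ?_⟩
    · revert hj
      refine Fin.cases ?_ (fun j => ?_) j
      · intro hj
        have hd : δ = 0 := by
          rw [k0, neg_eq_zero, or_self] at hj
          exact hj
        have hy : y ≠ 0 := fun h => h0 (Prod.ext hd h)
        have e1 : ∀ r, fm s U R (v r) 0 (δ, y) = U y := by
          intro r
          simp only [fm]
          rw [k0, if_pos hd]
          rfl
        have e2 : ∀ r, fm s U R (v r) 0 (-(δ, y)) = U (-y) := by
          intro r
          simp only [fm, Prod.neg_mk]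
          rw [k0, if_pos (by rw [hd, neg_zero])]
          rfl
        simp only [e1, e2]
        rcases hU.half y hy with h | h
        · exact Or.inl fun _ => h
        · exact Or.inr fun _ => h
      · refine Fin.cases ?_ (fun j => ?_) j
        · intro hj
          have hd : δ = ((s + 1 : ℕ) : ZMod (2 * (s + 1))) := by
            rw [k1] at hj
            rcases hj with hj | hj
            · exact hj
            · rw [neg_eq_iff_add_eq_zero] at hj
              rw [← ht2] at hj
              exact add_right_cancel hj
          have hy : y ≠ 0 := fun h => ht (Prod.ext hd h)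
          have hnd : -δ = ((s + 1 : ℕ) : ZMod (2 * (s + 1))) := by
            rw [hd, neg_eq_iff_add_eq_zero]
            exact ht2
          have e1 : ∀ r, fm s U R (v r) (Fin.succ 0) (δ, y) = R y := by
            intro r
            simp only [fm]
            rw [k1, if_pos hd]
            rfl
          have e2 : ∀ r, fm s U R (v r) (Fin.succ 0) (-(δ, y)) = R (-y) := by
            intro r
            simp only [fm, Prod.neg_mk]
            rw [k1, if_pos hnd]
            rfl
          simp only [e1, e2]
          rcases hR.half y hy with h | h
          · exact Or.inl fun _ => h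
          · exact Or.inr fun _ => h
        · intro hj
          rcases hj with hj | hj
          · left
            intro r
            constructor
            · simp only [fm]
              rw [if_pos hj]
              exact hv r j y
            · simp only [fm, Prod.neg_mk]
              rw [if_neg]
              intro h2
              have h3 := kc_neg s j.succ.succ j.succ.succ (by
                have e : -(-δ) = -kc s j.succ.succ := congrArg Neg.neg h2
                rw [neg_neg, hj] at e
                exact e)
              rw [cs_succ] at h3
              have := j.isLt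
              omega
          · right
            intro r
            constructor
            · simp only [fm]
              rw [if_neg]
              intro h2
              have h3 := kc_neg s j.succ.succ j.succ.succ (by
                have e : -(-δ) = -kc s j.succ.succ := congrArg Neg.neg hj
                rw [neg_neg, h2] at e
                exact e)
              rw [cs_succ] at h3
              have := j.isLt
              omega
            · simp only [fm, Prod.neg_mk]
              rw [if_pos hj]
              exact hv r j (-y)
    · intro i hij r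
      simp only [fm, Prod.neg_mk]
      rcases hj with hj | hj
      · rw [if_neg, if_neg]
        · exact ⟨rfl, rfl⟩
        · intro h
          exact hij (kc_neg s i j (by rw [← h, hj])).1
        · intro h
          exact hij (kc_inj s i j (by rw [← h, hj]))
      · rw [if_neg, if_neg]
        · exact ⟨rfl, rfl⟩
        · intro h
          exact hij (kc_inj s i j (by rw [← h, hj]))
        · intro h
          exact hij (kc_neg s i j (by rw [← h, ← hj, neg_neg])).1
  · rintro r ⟨δ, x⟩ hdx
    simp only [acf_fm]
    by_cases hd : δ = 0
    · have hx : x ≠ 0 := fun h => hdx (Prod.ext hd h)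
      simp only [if_pos hd]
      rw [Fin.sum_univ_succ, Fin.sum_univ_succ, ← add_assoc]
      exact hsum r x hx
    · simp only [if_neg hd, Finset.sum_const_zero]

end Pool.Agent.H22.U3
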